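import Mathlib
import Pool.Agent.H436R3.KT.Main

/-!
# Being of klt type is not an open condition in flat families

The example: let `A` be the section ring of `O (4, 1)` on `P^1 × P^1`, with affine coordinates `x`,
`y` and the section `z`, and `h = z (x ^ 4 - y)`. The family is `A [T, t] / (h - t T ^ 2)` over the
affine line with coordinate `t`. The fibre over `0` is the product of a line and the cone over the
rational normal curve of degree `8`. All other fibres are isomorphic to the double cover of the cone
over `P^1 × P^1` branched along the cone over that curve.
-/

set_option autoImplicit false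

namespace Pool.Agent.Results.MP_ce0b4e_ag.NotOpen

open Pool.Agent.H436R3.Fol Pool.Agent.H436R3.KT

/-- There is a flat family of normal affine varieties over the affine line, with a section, such
that the fibre over `0` is of klt type, but no other fibre is of klt type, and the failure is at the
section: for `c ≠ 0` there is no effective `ℝ`-divisor `B` on the fibre over `c` such that the fibre
with `B` is klt at the point of the section. -/
theorem result : ∃ (K : Type) (_ : Field K) (_ : Algebra ℂ K) (F : FlatFamily K) (s : Sec F),
    (∀ c, IsNormal (F.X c)) ∧ IsKltType (F.X 0) ∧
    ∀ c : ℂ, c ≠ 0 → ¬ IsKltType (F.X c) ∧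
      ∃ P : Pt (F.X c), s.At c P ∧ ∀ B : EffDiv (F.X c), ¬ IsKltAt B P := by
  obtain ⟨F, s, h⟩ := main
  exact ⟨K3, inferInstance, inferInstance, F, s, h⟩

end Pool.Agent.Results.MP_ce0b4e_ag.NotOpen
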